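import Mathlib
import Pool.Agent.X258.LC.Fin

/-!
MP_64ff02_ag, Q1: holomorphic curves given by lacunary power series (gap series).
-/

set_option autoImplicit false

namespace Pool.Agent.Results.MP_64ff02_ag.LacunaryCurves

open MvPolynomial Metric Set Filter Topology FF
open Pool.Agent.W602.GT Pool.Agent.TH143 Pool.Agent.TH143.GT Pool.Agent.W603.BP
  Pool.Agent.W603.BPR Pool.Agent.W603.GR Pool.Agent.W603.PV Pool.Agent.X258.LC

/-- Let `X` be the quasi-projective variety with the homogeneous ideal `p` and the boundary `Q = 0`,
`Q` of degree `q`. Let `F = ∑ c n * z ^ n` be a vector of entire functions, `c n` the vectors of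
Taylor coefficients, and suppose that `Q (F)` is of finite order (this holds if `X` is projective,
`Q = 1`, for `F` of any growth, and it holds if `F` is of finite order).

For a natural number `D` the series `F` has gaps of ratio `D`, `Lac D (fun n => c n ≠ 0)`, if there
is a number `w` such that of two exponents `m < n` with nonzero coefficient vectors, `n` large,
either `n ≤ m + w` or `D * m < n`: the exponents lie in blocks of length at most `w`, and each
block is more than `D` times further than the preceding one.

(1) Suppose that all subvarieties of positive dimension of `X` which are not contained in `G = 0`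
are of log general type, and that `F` has gaps of ratio `D` for all `D` (for example `c n ≠ 0` only
for factorials `n`). If `F` is an entire curve in `X`, then it is contained in `G = 0`. If
`w ↦ F (1 / w)` is a holomorphic map from the punctured disc to `X` whose image is not contained in
`G = 0`, then it extends to the disc.

(2) Suppose that `X` is of log general type, that `p` is generated by forms of degrees `< D`, that
`q < D`, and that `F` has gaps of ratio `D`. If `F` is an entire curve in `X`, it is not
Zariski-dense. If `w ↦ F (1 / w)` is a Zariski-dense holomorphic map from the punctured disc to `X`,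
then it extends to the disc. -/
theorem result {n : ℕ} (p : Ideal (MvPolynomial (Fin (n + 1)) ℂ)) (hp : IsHomog p)
    (Q : MvPolynomial (Fin (n + 1)) ℂ) (q : ℕ) (hQ : Q.IsHomogeneous q)
    (F : ℂ → Fin (n + 1) → ℂ) (c : ℕ → Fin (n + 1) → ℂ)
    (hc : ∀ z j, HasSum (fun m => c m j * z ^ m) (F z j))
    (hord : ∃ (C : ℝ) (k : ℕ), ∀ z, ‖eval (F z) Q‖ ≤ Real.exp (C * (1 + ‖z‖) ^ k)) :
    (∀ G : MvPolynomial (Fin (n + 1)) ℂ, IsForm G → SubLogGT p Q q G →
      (∀ D, Lac D (fun m => c m ≠ 0)) →
      (EntireCurve p Q F → ∀ z, eval (F z) G = 0) ∧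
      (PCurve p Q (fun w => F w⁻¹) → (∃ z ∈ ball (0 : ℂ) 1 \ {0}, eval (F z⁻¹) G ≠ 0) →
        Extends (fun w => F w⁻¹))) ∧
    (∀ (K : Type) [Field K] [Algebra ℂ K] (w : ℕ) (y : Fin (n + 1) → K), FunField p Q K w y →
      LogGeneralType ℂ K w (OffQ Q q y) →
      ∀ D : ℕ, p = Ideal.span {H | H ∈ p ∧ ∃ d < D, H.IsHomogeneous d} → q < D →
      Lac D (fun m => c m ≠ 0) →
      (EntireCurve p Q F → ¬ ZDense p F univ) ∧
      (PCurve p Q (fun w => F w⁻¹) → ZDense p (fun w => F w⁻¹) (ball 0 1 \ {0}) →
        Extends (fun w => F w⁻¹))) :=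
  ⟨fun _ hG h hl => ⟨fun hf z => strong_entire hp hQ hG h hf hc hl hord z,
    fun hf hfG => strong_punct hp hQ hG h hf hc hl hord hfG⟩,
  fun _ _ _ _ _ hy h _ hD hqD hl => ⟨fun hf => dense_entire hQ hy h hD hqD hf hc hl hord,
    fun hf hd => dense_punct hQ hy h hD hqD hf hc hl hord hd⟩⟩

end Pool.Agent.Results.MP_64ff02_ag.LacunaryCurves
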