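import Mathlib
import Pool.Agent.X333.NK.Uni

/-!
MP_64ff02_ag, Q1: projective varieties given by nested sums of few high powers of linear forms, with
exponents which are large only compared with the numbers of summands (there is no condition that
involves the dimension): pseudo Picard hyperbolic, pseudo Brody hyperbolic, not uniruled, and not
covered by lines are the same, and they hold if the Kodaira dimension is nonnegative.
-/

set_option autoImplicit false

namespace Pool.Agent.Results.MP_64ff02_ag.NestedNonUniruled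

open FF MvPolynomial Pool.Agent.H159R3.War Pool.Agent.H159R3.WarLog Pool.Agent.W603.BP
  Pool.Agent.W603.BPW Pool.Agent.W603.GW Pool.Agent.W603.GX Pool.Agent.W603.GY Pool.Agent.W602.GT
open Pool.Agent.TH710.NW (Tower)

/-- There is no boundary: the variety is projective. -/
def noBoundary (n : ℕ) : Empty → MvPolynomial (Fin (n + 1)) ℂ := fun e => e.elim

/-- Let `X` be the irreducible projective variety `{F_i = 0}` in `P^n`, of dimension `w`, with
function field `K` and generic point `y`, where the `F_i` are nested sums of few high powers of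
linear forms: the exponent is at least the square of (number of summands - 1) at the outermost level
and of (twice the number of summands - 1) at the other levels; the numbers of levels are arbitrary,
and there is no condition on `n` or `w`.

The following are equivalent: `X` is pseudo Picard hyperbolic; `X` is pseudo Brody hyperbolic; `X` is
not uniruled; `X` is not covered by lines.

They hold if the Kodaira dimension of `X` is nonnegative, that is, if for some `N > 0` there is a
nonzero `N`-canonical form which is regular at all prime divisors. -/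
theorem result {n : ℕ} {ι : Type} (F : ι → MvPolynomial (Fin (n + 1)) ℂ) (hF : ∀ i, Tower (F i))
    {K : Type} [Field K] [Algebra ℂ K] {w : ℕ} {y : Fin (n + 1) → K}
    (hy : SubVarQ F (noBoundary n) K w y) (hg : GenericQ F (noBoundary n) y) :
    [PseudoPicard F (noBoundary n), PseudoBrody F (noBoundary n), ¬ Uniruled ℂ K,
      ∃ x ∈ Pts F (noBoundary n), ∀ q, ¬ LineIn F x q].TFAE ∧
    ∀ (N : ℕ) (ω : (Fin w → Derivation ℂ K K) → K), 0 < N → IsPluri N ω →
      (∀ P : Place ℂ K, Divisorial w P → RegAt P ω) → (∃ D, ω D ≠ 0) →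
      PseudoPicard F (noBoundary n) := by
  have hF' : ∀ i, Pool.Agent.TH710.NW.Stab (F i) := fun i => (hF i).stab
  have hQ' : ∀ j, ∃ d, Pool.Agent.TH710.NW.StabLog (noBoundary n j) d := fun j => j.elim
  have h3 := Pool.Agent.TH710.NW.pseudo_iff F (noBoundary n) hF' hQ'
  have h4 := Pool.Agent.TH710.NW.main F (noBoundary n) hF' hQ'
  have hpl : ∀ x q, PuncturedLine F (noBoundary n) x q ↔ LineIn F x q := fun x q =>
    ⟨fun h => h.1, fun h => ⟨h, 0, 0, fun j => j.elim⟩⟩
  have h4' : PseudoBrody F (noBoundary n) ↔ ∃ x ∈ Pts F (noBoundary n), ∀ q, ¬ LineIn F x q := by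
    rw [h4]
    constructor
    · rintro ⟨x, hx, h⟩
      exact ⟨x, hx, fun q hq => h q ((hpl x q).2 hq)⟩
    · rintro ⟨x, hx, h⟩
      exact ⟨x, hx, fun q hq => h q ((hpl x q).1 hq)⟩
  have key : PseudoBrody F (noBoundary n) ↔ gmPoints F (noBoundary n) ≠ Pts F (noBoundary n) := by
    rw [h4]
    constructor
    · rintro ⟨x, hx, hno⟩ heq
      rw [← heq] at hx
      obtain ⟨q, hq⟩ := Pool.Agent.TH710.NW.exists_line F (noBoundary n) hF' hQ' hx
      exact hno q hq
    · intro hne
      by_contra hcon
      push Not at hcon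
      apply hne
      apply Set.Subset.antisymm
      · rintro x ⟨v, t, hv, ht, rfl⟩
        exact hv.2.1 t ht
      · intro x hx
        obtain ⟨q, hq⟩ := hcon x hx
        obtain ⟨v, hv, hv1⟩ := torus_of_line F (noBoundary n) hq
        exact ⟨v, 1, hv, one_ne_zero, hv1⟩
  have h5 : ¬ PseudoBrody F (noBoundary n) → Uniruled ℂ K := by
    intro h
    have heq : gmPoints F (noBoundary n) = Pts F (noBoundary n) := by
      by_contra hne
      exact h (key.2 hne)
    obtain ⟨M, _, _, m, W, l, hm, hFam, r, hr⟩ :=
      Pool.Agent.TH710.NW.fam_of_gm hF' hQ' hy hg heq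
    exact Pool.Agent.X333.NK.uniruled_of_fam hy.ne hy.gen hFam hr
  have h6 : Uniruled ℂ K → ¬ PseudoBrody F (noBoundary n) := by
    rintro ⟨M, _, _, -, φ, hφ⟩ ⟨G, hG, ⟨x, hx, hxG⟩, hcur⟩
    have hGy : Pool.Agent.W602.GT.val y G ≠ 0 := fun h0 => hxG (hg G hG h0 x hx)
    obtain ⟨f, hf, t, ht⟩ := Pool.Agent.X333.NK.curve_of_embedding φ hφ hy.ne hy.gen hG hGy
    apply ht
    refine hcur (fun t i => f i t) ⟨?_, fun z => ⟨?_, fun i => ?_, fun j => j.elim⟩, ?_⟩ t
    · rw [differentiable_pi]
      exact hf.hol
    · intro h0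
      obtain ⟨i, hi⟩ := hf.ne z
      exact hi (congrFun h0 i)
    · exact hf.mem (F i) (hF i).hom (hy.mem i) z
    · obtain ⟨i, j, a, b, hab⟩ := hf.nonconst
      refine ⟨a, b, fun c hc => hab ?_⟩
      have h1 : ∀ l, f l a = c * f l b := fun l => congrFun hc l
      rw [h1 i, h1 j]
      ring
  refine ⟨?_, ?_⟩
  · tfae_have 1 ↔ 2 := h3
    tfae_have 2 ↔ 4 := h4'
    tfae_have 2 → 3 := fun h hU => h6 hU h
    tfae_have 3 → 2 := fun h => by
      by_contra hb
      exact h (h5 hb)
    tfae_finish
  · rintro N ω hN h1 h2 ⟨D, hD⟩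
    refine h3.2 (key.2 (Pool.Agent.TH710.NW.ne_of_pluri hF' hy hg hN ?_ hD))
    refine ⟨h1, fun P hP D' hD' => h2 P hP D' fun i => ?_, fun P hP _ => h2 P hP⟩
    exact Pool.Agent.TH466.QG.derReg_of_log (hD' i)

end Pool.Agent.Results.MP_64ff02_ag.NestedNonUniruled
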