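import Mathlib
import Pool.Agent.X258.SE.Fin

/-!
MP_64ff02_ag, Q1: curves whose homogeneous coordinates are exponential sums with coefficients of
slow growth.
-/

set_option autoImplicit false

namespace Pool.Agent.Results.MP_64ff02_ag.SlowCoefficientSums

open MvPolynomial Metric Set Filter Topology FF
open Pool.Agent.W602.GT Pool.Agent.TH143 Pool.Agent.TH143.GT Pool.Agent.W603.BP
  Pool.Agent.W603.BPR Pool.Agent.W603.GR Pool.Agent.W603.PV Pool.Agent.X258.SE

/-- Let `X` be the quasi-projective variety with the homogeneous ideal `p` and the boundary `Q = 0`.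
Let `d > 0`, and let `f` be a holomorphic map to `X` from the punctured disc, or an entire curve in
`X`, whose homogeneous coordinates near the puncture, or near infinity, are exponential sums
`f_j = ∑ P ∈ s, b_{j,P} e^P`. Here `s` is a finite set of polynomials in `1 / w`, or in `z`, whose
differences have degree at least `d`, and the `b_{j,P}` are holomorphic functions near the puncture,
or near infinity, of slow growth: `log |b_{j,P} (w)| ≤ ε |w| ^ (-d)` near the puncture for all
`ε > 0`, or `log |b_{j,P} (z)| ≤ ε |z| ^ d` near infinity.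

(1) If the subvarieties of positive dimension of `X` which are not contained in `G = 0` are of log
general type, and if the image of `f` is not contained in `G = 0`, then the exponentials cancel: all
vectors `(b_{j,P})_j` of coefficients are proportional to `f`. So `f` is given by homogeneous
coordinates of slow growth.

(2) The same holds if `X` is of log general type and if `f` is Zariski-dense. -/
theorem result {n : ℕ} (p : Ideal (MvPolynomial (Fin (n + 1)) ℂ)) (hp : IsHomog p)
    (Q : MvPolynomial (Fin (n + 1)) ℂ) (q : ℕ) (hQ : Q.IsHomogeneous q)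
    (d : ℕ) (hd : 0 < d) (s : Finset (Polynomial ℂ))
    (b : Fin (n + 1) → Polynomial ℂ → ℂ → ℂ) :
    (∀ G : MvPolynomial (Fin (n + 1)) ℂ, IsForm G → SubLogGT p Q q G →
      (∀ f, PCurve p Q f → ExpSums d s b f → (∃ z ∈ ball (0 : ℂ) 1 \ {0}, eval (f z) G ≠ 0) →
        Collapse s b f) ∧
      ∀ f, EntireCurve p Q f → ExpSums d s b (fun w => f w⁻¹) → (∃ z, eval (f z) G ≠ 0) →
        Collapse s b (fun w => f w⁻¹)) ∧
    (∀ (K : Type) [Field K] [Algebra ℂ K] (w : ℕ) (y : Fin (n + 1) → K), FunField p Q K w y →
      LogGeneralType ℂ K w (OffQ Q q y) →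
      (∀ f, PCurve p Q f → ExpSums d s b f → ZDense p f (ball 0 1 \ {0}) → Collapse s b f) ∧
      ∀ f, EntireCurve p Q f → ExpSums d s b (fun w => f w⁻¹) → ZDense p f univ →
        Collapse s b (fun w => f w⁻¹)) := by
  refine ⟨fun G hG h => ⟨fun f hf hs hfG => ?_, fun f hf hs hfG => ?_⟩, fun K _ _ w y hy h =>
    ⟨fun f hf hs hz => ?_, fun f hf hs hz => ?_⟩⟩
  · obtain ⟨j, hj⟩ := nz_disc hf
    exact collapse_of (strong_disc hp hQ hG h hf hd hs hfG) hs hj
  · obtain ⟨j, hj⟩ := nz_plane hf
    obtain ⟨z, hz⟩ := hfG
    exact collapse_of (strong_plane hp hQ hG h hf hd hs hz) hs hj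
  · obtain ⟨j, hj⟩ := nz_disc hf
    exact collapse_of (dense_disc hQ hy h hf hd hs hz) hs hj
  · obtain ⟨j, hj⟩ := nz_plane hf
    exact collapse_of (dense_plane hQ hy h hf hd hs hz) hs hj

end Pool.Agent.Results.MP_64ff02_ag.SlowCoefficientSums
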