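import Pool.Agent.X316.ZG.Log5

/-!
# Entire curves in quasi-projective varieties built from the Riemann zeta function

A family `u` of meromorphic functions on the plane is called jointly universal if the translates of
every finite subfamily approximate all tuples of zero-free entire functions uniformly on some disc.
By Voronin's theorem this holds for the Riemann zeta function alone.

Let `B` be the ring of all polynomials in the functions `u j` and their derivatives, for example
`B = ℂ[ζ, ζ', ζ'', …]`, and let `X` be the complement of the hypersurface `Q = 0`, with `Q` a form of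
degree `d > 0`, in a projective algebraic set. The regular functions on `X` are the polynomials in
the functions `x ^ α / Q` with `|α| = d`. We consider the entire curves `f` in `X` such that the
functions `x ^ α / Q` belong along `f` to the smallest set of meromorphic functions which contains
the quotients of the functions in `B` and is closed under sums, products and meromorphic solutions
of linear systems `y' = A y` with coefficients in the set, and the entire curves in `X` which are
algebraic over `B` (`LogCurve I Q d u f`).

For these curves the generalised conjecture of Green, Griffiths and Lang holds: they are constant or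
lie in the locus of the curves of the multiplicative group; if `X` is of logarithmic general type,
they are not Zariski-dense; if `X` is strongly of logarithmic general type outside a hypersurface,
they are contained in this hypersurface.

The translates of an algebraic curve of this kind approximate, on small discs, entire curves which
are algebraic over the exponential function. Since the regular functions along the curve have no
poles, the limits are images of the punctured line in `X`, and they cover the closure of the curve.
-/

set_option autoImplicit false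

namespace Pool.Agent.Results.MP_64ff02_ag.UniversalCurves

open Filter MvPolynomial
open scoped LinearAlgebra.Projectivization
open Pool.Agent.TH143.EL (HolMap Rep InV)
open Pool.Agent.TH143.GT (FunField)
open Pool.Agent.W602.GT (IsForm LogGeneralType)
open Pool.Agent.W603.GR (OffQ SubLogGT)
open Pool.Agent.W603.PV (IsHomog)
open Pool.Agent.Y377.IL
open Pool.Agent.X316.ZG (JointlyUniversal dring LogCurve)

variable {N : ℕ}

/-- the Zariski closure of a set of points of the projective space -/
def ZClosure (S : Set (ℙ ℂ (Fin (N + 1) → ℂ))) : Set (ℙ ℂ (Fin (N + 1) → ℂ)) :=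
  {p | ∀ G : MvPolynomial (Fin (N + 1)) ℂ, (∃ d, G.IsHomogeneous d) →
    (∀ x ∈ S, eval x.rep G = 0) → eval p.rep G = 0}

/-- the special set of the nonconstant entire curves built from `u` -/
def SpUniv {ι : Type} (u : ι → ℂ → ℂ) (I : Ideal (MvPolynomial (Fin (N + 1)) ℂ))
    (Q : MvPolynomial (Fin (N + 1)) ℂ) (d : ℕ) : Set (ℙ ℂ (Fin (N + 1) → ℂ)) :=
  ZClosure {x | ∃ f, LogCurve I Q d u f ∧ (∃ z w, f z ≠ f w) ∧ ∃ z, f z = x}

/-- the special set of the nonconstant morphisms from the multiplicative group to `X` -/
def SpGm (I : Ideal (MvPolynomial (Fin (N + 1)) ℂ)) (Q : MvPolynomial (Fin (N + 1)) ℂ) :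
    Set (ℙ ℂ (Fin (N + 1) → ℂ)) :=
  ZClosure {x | ∃ p, GmCurve I Q p ∧ ∃ t, t ≠ 0 ∧ Rep x fun j => (p j).eval t}

theorem mono {B : Subalgebra ℂ (ℂ → ℂ)} {g : ℂ → ℂ} (h : IterLin ⊥ g) : IterLin B g := by
  induction h with
  | quot h1 h2 => exact IterLin.quot (bot_le (a := B) h1) (bot_le (a := B) h2)
  | add _ _ h1 h2 => exact h1.add h2
  | mul _ _ h1 h2 => exact h1.mul h2
  | ode A y _ h2 h3 i h4 => exact IterLin.ode A y h4 h2 h3 i

theorem cover {ι : Type} {u : ι → ℂ → ℂ} (hu : JointlyUniversal u)
    {I : Ideal (MvPolynomial (Fin (N + 1)) ℂ)} {Q : MvPolynomial (Fin (N + 1)) ℂ}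
    {d : ℕ} (hd : 0 < d) (hQ : Q.IsHomogeneous d)
    {f : ℂ → ℙ ℂ (Fin (N + 1) → ℂ)} (hf : LogCurve I Q d u f) :
    (∀ z z', f z = f z') ∨ ∀ z, f z ∈ SpGm I Q := by
  rcases Pool.Agent.X316.ZG.log_form hu hd hQ hf with h1 | h1
  · exact Or.inl h1
  · right
    intro z G hG hS
    refine h1 G hG (fun p hp t ht => ?_) z
    by_cases hv : (fun j => (p j).eval t) = 0
    · exfalso
      obtain ⟨hp1, -, -⟩ := hp
      apply hp1 t ht
      have h2 := form_scale (A := ℂ) hQ 0 fun j => (p j).eval t
      rw [aeval_eq_eval, aeval_eq_eval, zero_pow hd.ne', zero_mul] at h2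
      have h3 : (fun j : Fin (N + 1) => (0 : ℂ) * (p j).eval t) = fun j => (p j).eval t := by
        rw [hv]
        funext j
        simp
      rw [h3] at h2
      exact h2
    · let x : ℙ ℂ (Fin (N + 1) → ℂ) := Projectivization.mk ℂ _ hv
      have hx : Rep x fun j => (p j).eval t := ⟨hv, rfl⟩
      have h2 := hS x ⟨p, hp, t, ht, hx⟩
      rwa [Pool.Agent.TH600.LE.rep_form hx hG] at h2

/-- **The generalised Green-Griffiths-Lang conjecture for the curves built from universal
functions.** Let `u` be a jointly universal family, and let `Q` be a form of degree `d > 0`.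

(1) Let `X` be the complement of `Q = 0` in the algebraic set of the ideal `I`. The Zariski closure
of the union of the nonconstant entire curves in `X` built from `u` is the Zariski closure of the
union of the images of the nonconstant morphisms from the multiplicative group to `X`. If there are
no such morphisms, all entire curves in `X` built from `u` are constant.

(2) Let the subvarieties of positive dimension of `X` which are not contained in `G = 0` be of
logarithmic general type. Then all nonconstant entire curves in `X` built from `u` are contained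
in `G = 0`.

(3) Let `X` be a variety of logarithmic general type with the ideal `p`, the function field `K`, the
generic point `y` and the dimension `w`. Then no nonconstant entire curve in `X` built from `u` is
Zariski-dense.

(4) The Riemann zeta function is universal. -/
theorem result :
    (∀ (ι : Type) (u : ι → ℂ → ℂ), JointlyUniversal u →
      ∀ (Q : MvPolynomial (Fin (N + 1)) ℂ) (d : ℕ), 0 < d → Q.IsHomogeneous d →
      (∀ I : Ideal (MvPolynomial (Fin (N + 1)) ℂ), SpUniv u I Q d = SpGm I Q ∧
        ((¬ ∃ p, GmCurve I Q p) → ∀ f, LogCurve I Q d u f → ∀ z w, f z = f w)) ∧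
      (∀ p : Ideal (MvPolynomial (Fin (N + 1)) ℂ), IsHomog p →
        ∀ G : MvPolynomial (Fin (N + 1)) ℂ, IsForm G → SubLogGT p Q d G →
          ∀ f, LogCurve p Q d u f → (∃ z w, f z ≠ f w) → ∀ z, eval (f z).rep G = 0) ∧
      ∀ (p : Ideal (MvPolynomial (Fin (N + 1)) ℂ)) (K : Type) [Field K] [Algebra ℂ K]
        (w : ℕ) (y : Fin (N + 1) → K), FunField p Q K w y → LogGeneralType ℂ K w (OffQ Q d y) →
          ∀ f, LogCurve p Q d u f → (∃ z w, f z ≠ f w) →
            ¬ ∀ G : MvPolynomial (Fin (N + 1)) ℂ, IsForm G → (∀ z, eval (f z).rep G = 0) →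
              G ∈ p) ∧
    JointlyUniversal fun _ : Unit => riemannZeta := by
  refine ⟨fun ι u hu Q d hd hQ => ⟨fun I => ⟨?_, ?_⟩, ?_, ?_⟩,
    Pool.Agent.X316.ZG.zeta_universal⟩
  · apply Set.Subset.antisymm
    · intro x hx G hG hGS
      apply hx G hG
      rintro _ ⟨f, hf, ⟨z1, z2, hne⟩, z, rfl⟩
      rcases cover hu hd hQ hf with h1 | h1
      · exact absurd (h1 z1 z2) hne
      · exact h1 z G hG hGS
    · intro x hx G hG hGS
      apply hx G hG
      rintro y ⟨p, hp, t, ht, hy⟩
      obtain ⟨f, h1, h2, h3, h4, h5, h6⟩ := iter_of_gm hd hQ hp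
      exact hGS y ⟨f, ⟨h1, h2, h3, Or.inl fun α hα => mono (h4 α hα)⟩, h5, h6 t ht y hy⟩
  · intro hno f hf z w
    rcases cover hu hd hQ hf with h1 | h1
    · exact h1 z w
    · exfalso
      have h2 := h1 z Q ⟨d, hQ⟩ (by
        rintro x ⟨p, hp, -⟩
        exact absurd ⟨p, hp⟩ hno)
      exact hf.off z h2
  · rintro p hp G hG h f hf ⟨z, w, hne⟩
    rcases Pool.Agent.X316.ZG.log_sub hu hd hp hQ hG h hf with h1 | h1
    · exact absurd (h1 z w) hne
    · exact h1
  · rintro p K _ _ w y hy hL f hf ⟨z1, z2, hne⟩ hden
    rcases Pool.Agent.X316.ZG.log_lgt hu hd hQ hf hy hden with h1 | h1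
    · exact hne (h1 z1 z2)
    · exact h1 hL

end Pool.Agent.Results.MP_64ff02_ag.UniversalCurves
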